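import Pool.Agent.Helper35.PI2.St

set_option autoImplicit false

namespace Helper71.PI2

open Helper35.PI Helper35.PI2
open scoped ContDiff Manifold Topology ENNReal BigOperators
open MeasureTheory Set Filter

section Gen

variable {E : Type*} [NormedAddCommGroup E] [NormedSpace ℝ E]

/-- directional derivative of a smooth function is smooth -/
private lemma cdir {F : Type*} [NormedAddCommGroup F] [NormedSpace ℝ F] {φ : E → F} {z : E}
    (h : ContDiffAt ℝ ∞ φ z) (d : E) : ContDiffAt ℝ ∞ (fun z => fderiv ℝ φ z d) z :=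
  (h.fderiv_right (m := ∞) (by simp)).clm_apply contDiffAt_const

private lemma sdiff {F : Type*} [NormedAddCommGroup F] [NormedSpace ℝ F] {φ : E → F} {z : E}
    (h : ContDiffAt ℝ ∞ φ z) : DifferentiableAt ℝ φ z :=
  h.differentiableAt (by simp)

private lemma evdiff {F : Type*} [NormedAddCommGroup F] [NormedSpace ℝ F] {φ : E → F} {z : E}
    (h : ContDiffAt ℝ ∞ φ z) : ∀ᶠ y in 𝓝 z, DifferentiableAt ℝ φ y := by
  have h1 : ContDiffAt ℝ 1 φ z := h.of_le (by exact_mod_cast le_top)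
  exact (h1.eventually (by simp)).mono fun y hy => hy.differentiableAt (by simp)

/-- product of two functions vanishing at the point: first derivative -/
private lemma pr1 {a b : E → ℝ} {z : E} (ha : ContDiffAt ℝ ∞ a z) (hb : ContDiffAt ℝ ∞ b z)
    (a0 : a z = 0) (b0 : b z = 0) (d : E) : fderiv ℝ (fun y => a y * b y) z d = 0 := by
  rw [fderiv_fun_mul (sdiff ha) (sdiff hb), a0, b0]
  simp

/-- product of two functions vanishing at the point: second derivative -/
private lemma pr2 {a b : E → ℝ} {z : E} (ha : ContDiffAt ℝ ∞ a z) (hb : ContDiffAt ℝ ∞ b z)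
    (a0 : a z = 0) (b0 : b z = 0) (d e : E) :
    fderiv ℝ (fun y => fderiv ℝ (fun y => a y * b y) y e) z d
      = fderiv ℝ a z d * fderiv ℝ b z e + fderiv ℝ a z e * fderiv ℝ b z d := by
  have hev : (fun y => fderiv ℝ (fun y => a y * b y) y e) =ᶠ[𝓝 z]
      fun y => a y * fderiv ℝ b y e + b y * fderiv ℝ a y e := by
    filter_upwards [evdiff ha, evdiff hb] with y h1 h2
    rw [fderiv_fun_mul h1 h2]
    simp
  rw [hev.fderiv_eq]
  have ca := cdir ha e
  have cb := cdir hb e
  rw [fderiv_fun_add ((sdiff ha).fun_mul (sdiff cb)) ((sdiff hb).fun_mul (sdiff ca)),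
    fderiv_fun_mul (sdiff ha) (sdiff cb), fderiv_fun_mul (sdiff hb) (sdiff ca), a0, b0]
  simp
  ring

end Gen

theorem hNJ (hNR : StNR) (hSM : StSM) (hG0 : StG0) (hG1 : StG1) (hG2 : StG2) (hJA : StJA)
    (hJB : StJB) : StNJ := by
  intro n N x₀ L u t₀ hu v hv hperp nv hnv
  have hG0' := hG0 n N x₀ L u t₀ hu
  obtain ⟨hSy, -, -, -⟩ := hG1 n N x₀ L u t₀ hu
  have hG2' := hG2 n N x₀ L u t₀ hu
  set z₀ : EE n × ℝ := (0, t₀) with hz₀
  -- the smooth functions
  have cu : ∀ k, ContDiffAt ℝ ∞ (fun z => jg u z k) z₀ := fun k => cdir hu.smooth (ee k, 0)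
  have cG : ∀ k l, ContDiffAt ℝ ∞ (GIf x₀ L u k l) z₀ := fun k l => (hG0' k l).1
  set c : Fin n → EE n × ℝ → ℝ := fun k z => (inner ℝ (v z) (jg u z k) : ℝ) with hc
  have cc : ∀ k, ContDiffAt ℝ ∞ (c k) z₀ := fun k => hv.inner ℝ (cu k)
  have c0 : ∀ k, c k z₀ = 0 := fun k => by
    simp only [hc]
    rw [hu.du0 k, inner_zero_right]
  set a : Fin n → Fin n → EE n × ℝ → ℝ := fun k l z => GIf x₀ L u k l z * c k z with ha
  have ca : ∀ k l, ContDiffAt ℝ ∞ (a k l) z₀ := fun k l => (cG k l).mul (cc k)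
  have a0 : ∀ k l, a k l z₀ = 0 := fun k l => by
    simp only [ha]
    rw [c0 k, mul_zero]
  -- first derivatives
  have dc : ∀ k (d : EE n × ℝ), fderiv ℝ (c k) z₀ d
      = inner ℝ (v z₀) (fderiv ℝ (fun z => jg u z k) z₀ d) := by
    intro k d
    have h := fderiv_inner_apply ℝ (sdiff hv) (sdiff (cu k)) d
    simp only [hc]
    rw [h, hu.du0 k, inner_zero_right, add_zero]
  have da : ∀ k l (d : EE n × ℝ), fderiv ℝ (a k l) z₀ d
      = (if k = l then 1 else 0) * fderiv ℝ (c k) z₀ d := by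
    intro k l d
    simp only [ha]
    rw [fderiv_fun_mul (sdiff (cG k l)) (sdiff (cc k)), c0 k, (hG0' k l).2.1]
    by_cases h : k = l
    · simp [h]
    · simp [h]
  -- the local formula
  set F : EE n × ℝ → EE N := fun z => v z - ∑ k, ∑ l, a k l z • (L (ee l) + jg u z l) with hF
  have hev : nv =ᶠ[𝓝 z₀] F := by
    filter_upwards [hG2', hperp] with z hz hp
    obtain ⟨d1, -, -, -, -⟩ := hz
    rw [hnv]
    show nrm (grf x₀ L u z.2) z.1 (v z) = _
    unfold nrm
    rw [hF]
    congr 1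
    refine Finset.sum_congr rfl fun k _ => Finset.sum_congr rfl fun l _ => ?_
    rw [d1 k, d1 l, inner_add_right, hp (ee k), zero_add]
    rfl
  have ct : ∀ k l, ContDiffAt ℝ ∞ (fun z => a k l z • (L (ee l) + jg u z l)) z₀ := fun k l =>
    (ca k l).smul (contDiffAt_const.add (cu l))
  have cF : ContDiffAt ℝ ∞ F z₀ :=
    hv.sub (ContDiffAt.sum fun k _ => ContDiffAt.sum fun l _ => ct k l)
  have cnv : ContDiffAt ℝ ∞ nv z₀ := cF.congr_of_eventuallyEq hev
  have dF : ∀ d : EE n × ℝ, fderiv ℝ nv z₀ d = fderiv ℝ v z₀ d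
      - ∑ k, (inner ℝ (v z₀) (fderiv ℝ (fun z => jg u z k) z₀ d) : ℝ) • L (ee k) := by
    intro d
    rw [hev.fderiv_eq, hF]
    have hsum : ∀ k, DifferentiableAt ℝ (fun z => ∑ l, a k l z • (L (ee l) + jg u z l)) z₀ :=
      fun k => sdiff (ContDiffAt.sum fun l _ => ct k l)
    rw [fderiv_fun_sub (sdiff hv) (sdiff (ContDiffAt.sum fun k _ => ContDiffAt.sum fun l _ => ct k l)),
      fderiv_fun_sum fun k _ => hsum k]
    rw [_root_.sub_apply, _root_.sum_apply]
    congr 1
    refine Finset.sum_congr rfl fun k _ => ?_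
    rw [fderiv_fun_sum fun l _ => sdiff (ct k l), _root_.sum_apply,
      Finset.sum_eq_single k]
    · rw [fderiv_fun_smul (sdiff (ca k k)) (sdiff (contDiffAt_const.add (cu k))), a0 k k]
      simp only [zero_smul, zero_add, ContinuousLinearMap.smulRight_apply]
      rw [da k k, dc k, if_pos rfl, one_mul, hu.du0 k, add_zero]
    · intro l _ hl
      rw [fderiv_fun_smul (sdiff (ca k l)) (sdiff (contDiffAt_const.add (cu l))), a0 k l]
      simp only [zero_smul, zero_add, ContinuousLinearMap.smulRight_apply]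
      rw [da k l, if_neg (Ne.symm hl), zero_mul, zero_smul]
    · intro h; exact absurd (Finset.mem_univ k) h
  refine ⟨cnv, ?_, fun m => ?_, fun w hw => ⟨?_, fun i j => ?_⟩⟩
  · rw [hev.eq_of_nhds, hF]
    simp [a0]
  · show fderiv ℝ nv z₀ (ee m, 0) = _
    rw [dF]
    show _ = fderiv ℝ v z₀ (ee m, 0) - _
    congr 1
    refine Finset.sum_congr rfl fun k _ => ?_
    rw [hSy k m]
    rfl
  · show (inner ℝ w (fderiv ℝ nv z₀ (0, 1)) : ℝ) = inner ℝ w (fderiv ℝ v z₀ (0, 1))
    rw [dF, inner_sub_right, inner_sum]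
    simp only [real_inner_smul_right, hw, mul_zero, Finset.sum_const_zero, sub_zero]
  · -- second derivatives
    have key : ∀ (φ : EE n × ℝ → EE N), ContDiffAt ℝ ∞ φ z₀ → ∀ d e : EE n × ℝ,
        (inner ℝ w (fderiv ℝ (fun y => fderiv ℝ φ y e) z₀ d) : ℝ)
          = fderiv ℝ (fun y => fderiv ℝ (fun y => (inner ℝ w (φ y) : ℝ)) y e) z₀ d := by
      intro φ hφ d e
      have h1 : (fun y => fderiv ℝ (fun y => (inner ℝ w (φ y) : ℝ)) y e) =ᶠ[𝓝 z₀]
          fun y => (inner ℝ w (fderiv ℝ φ y e) : ℝ) := by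
        filter_upwards [evdiff hφ] with y hy
        rw [fderiv_inner_apply ℝ (differentiableAt_const w) hy]
        simp
      rw [h1.fderiv_eq, fderiv_inner_apply ℝ (differentiableAt_const w) (sdiff (cdir hφ e))]
      simp
    set b : Fin n → EE n × ℝ → ℝ := fun l z => (inner ℝ w (jg u z l) : ℝ) with hb
    have cb : ∀ l, ContDiffAt ℝ ∞ (b l) z₀ := fun l => contDiffAt_const.inner ℝ (cu l)
    have b0 : ∀ l, b l z₀ = 0 := fun l => by
      simp only [hb]
      rw [hu.du0 l, inner_zero_right]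
    have db : ∀ l (d : EE n × ℝ), fderiv ℝ (b l) z₀ d
        = inner ℝ w (fderiv ℝ (fun z => jg u z l) z₀ d) := by
      intro l d
      simp only [hb]
      rw [fderiv_inner_apply ℝ (differentiableAt_const w) (sdiff (cu l))]
      simp
    have hevw : (fun y => (inner ℝ w (nv y) : ℝ)) =ᶠ[𝓝 z₀]
        fun y => (inner ℝ w (v y) : ℝ) - ∑ k, ∑ l, a k l y * b l y := by
      filter_upwards [hev] with y hy
      rw [hy, hF]
      simp only [inner_sub_right, inner_sum, real_inner_smul_right, inner_add_right, hw, zero_add]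
      rfl
    have cab : ∀ k l, ContDiffAt ℝ ∞ (fun y => a k l y * b l y) z₀ := fun k l =>
      (ca k l).mul (cb l)
    have cwv : ContDiffAt ℝ ∞ (fun y => (inner ℝ w (v y) : ℝ)) z₀ := contDiffAt_const.inner ℝ hv
    show (inner ℝ w (fderiv ℝ (fun y => fderiv ℝ nv y (ee j, 0)) z₀ (ee i, 0)) : ℝ)
      = inner ℝ w (fderiv ℝ (fun y => fderiv ℝ v y (ee j, 0)) z₀ (ee i, 0)) - _
    rw [key nv cnv, key v hv]
    have h2 : (fun y => fderiv ℝ (fun y => (inner ℝ w (nv y) : ℝ)) y (ee j, 0)) =ᶠ[𝓝 z₀]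
        fun y => fderiv ℝ (fun y => (inner ℝ w (v y) : ℝ)) y (ee j, 0)
          - ∑ k, ∑ l, fderiv ℝ (fun y => a k l y * b l y) y (ee j, 0) := by
      have h3 := hevw.fderiv (𝕜 := ℝ)
      have hall : ∀ᶠ y in 𝓝 z₀, ∀ k l, DifferentiableAt ℝ (fun y => a k l y * b l y) y :=
        Filter.eventually_all.2 fun k => Filter.eventually_all.2 fun l => evdiff (cab k l)
      filter_upwards [h3, evdiff cwv, hall] with y hy hy1 hy2
      rw [hy, fderiv_fun_sub hy1 (DifferentiableAt.fun_sum fun k _ =>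
        DifferentiableAt.fun_sum fun l _ => hy2 k l),
        fderiv_fun_sum fun k _ => DifferentiableAt.fun_sum fun l _ => hy2 k l,
        _root_.sub_apply, _root_.sum_apply]
      congr 1
      refine Finset.sum_congr rfl fun k _ => ?_
      rw [fderiv_fun_sum fun l _ => hy2 k l, _root_.sum_apply]
    rw [h2.fderiv_eq]
    have cD : ∀ k l, ContDiffAt ℝ ∞ (fun y => fderiv ℝ (fun y => a k l y * b l y) y (ee j, 0)) z₀ :=
      fun k l => cdir (cab k l) _
    rw [fderiv_fun_sub (sdiff (cdir cwv _)) (DifferentiableAt.fun_sum fun k _ =>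
      DifferentiableAt.fun_sum fun l _ => sdiff (cD k l)),
      fderiv_fun_sum fun k _ => DifferentiableAt.fun_sum fun l _ => sdiff (cD k l),
      _root_.sub_apply, _root_.sum_apply]
    congr 1
    refine Finset.sum_congr rfl fun k _ => ?_
    rw [fderiv_fun_sum fun l _ => sdiff (cD k l), _root_.sum_apply,
      Finset.sum_eq_single k]
    · rw [pr2 (ca k k) (cb k) (a0 k k) (b0 k), da k k, da k k, dc k, dc k, db k, db k, if_pos rfl,
        one_mul, one_mul, hSy k i, hSy k j]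
      rfl
    · intro l _ hl
      rw [pr2 (ca k l) (cb l) (a0 k l) (b0 l), da k l, da k l, if_neg (Ne.symm hl)]
      ring
    · intro h; exact absurd (Finset.mem_univ k) h

end Helper71.PI2
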